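import Pool.Agent.Lib.P8e.Final

/-!
# MP_8edae4_an: boundary contact of optimal reinforcing networks, counterexample

The definitions are in `Pool.Agent.Lib.P8e.Defs` (`energy`, `Adm`, `IsLipschitzDomain`, `IsStrictlyConvexDomain`, `LivesOn`,
`HasFullSupport`), `Pool.Agent.Lib.P8e.RelML` (`AdmRel`) and `Pool.Agent.Lib.P8e.Stmt` (`Relaxed`, `IsOptNetwork`). They follow the problem
file: `energy Ω f m μ` is `E_f(μ)`, `Adm Ω L` is the family of the connected sets `S ⊆ Ω`, closed in the plane, with `H^1(S) ≤ L`, `AdmRel Ω L` the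
same with sets closed relatively to `Ω`, `Relaxed 𝒜` the weak* closure of the measures `H^1 ⌞ S`, `S ∈ 𝒜`.

There are a bounded Lipschitz, strictly convex domain `Ω`, a finite signed measure `f` on `Ω` with support `Ω`, `m, L > 0`
and an optimal network `μ = θ H^1 ⌞ S` (for both readings of closed) with `H^1 (S ∩ ∂Ω) > 0`.
-/

open MeasureTheory Set Metric
open scoped ENNReal NNReal

namespace Pool.Agent.Results.MP_8edae4_an.CantorContact

open Pool.Agent.Lib.P8e

theorem result : ∃ (Ω : Set E2) (f : SignedMeasure E2) (m L : ℝ) (μ : FiniteMeasure E2)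
    (S : Set E2) (θ : E2 → ℝ≥0∞),
    IsLipschitzDomain Ω ∧ IsStrictlyConvexDomain Ω ∧ 0 < m ∧ 0 < L ∧
    LivesOn f Ω ∧ HasFullSupport f Ω ∧
    (∀ 𝒜 ∈ ({Adm Ω L, AdmRel Ω L} : Set (Set (Set E2))),
      (∃ S₀ ∈ 𝒜, energy Ω f m ((μH[1] : Measure E2).restrict S₀) ≠ ⊥) ∧
      IsOptNetwork 𝒜 Ω f m μ S θ) ∧
    0 < μH[1] (S ∩ frontier Ω) :=
  final

end Pool.Agent.Results.MP_8edae4_an.CantorContact
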